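import Pool.Agent.T9h34.Q.Spec

/-!
# (F2) The union bound for the bad event
-/

set_option autoImplicit false

namespace Pool.Agent.T9h41.QC

open Finset
open Pool.Agent.PC34 (prob)
open Pool.Agent.T9h34.Q

/-- The falling factorials: `(k)_j n ^ j ≤ (n)_j k ^ j` for `k ≤ n`. -/
lemma desc_le {k n : ℕ} (hkn : k ≤ n) (j : ℕ) :
    k.descFactorial j * n ^ j ≤ n.descFactorial j * k ^ j := by
  induction j with
  | zero => simp
  | succ j ih =>
    rw [Nat.descFactorial_succ, Nat.descFactorial_succ, pow_succ, pow_succ]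
    have h1 : (k - j) * n ≤ (n - j) * k := by
      rcases Nat.lt_or_ge k j with h | h
      · rw [Nat.sub_eq_zero_of_le h.le]
        simp
      · rw [Nat.sub_mul, Nat.sub_mul, mul_comm n k]
        have h2 : j * k ≤ j * n := Nat.mul_le_mul_left j hkn
        omega
    calc (k - j) * k.descFactorial j * (n ^ j * n)
        = (k.descFactorial j * n ^ j) * ((k - j) * n) := by ring
      _ ≤ (n.descFactorial j * k ^ j) * ((n - j) * k) := Nat.mul_le_mul ih h1
      _ = (n - j) * n.descFactorial j * (k ^ j * k) := by ring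

lemma choose_le {k n j : ℕ} (hkn : k ≤ n) (hjk : j ≤ k) :
    (n - j).choose (k - j) * n ^ j ≤ n.choose k * k ^ j := by
  have h1 : n.choose k * k.choose j = n.choose j * (n - j).choose (k - j) := Nat.choose_mul hjk
  have h2 := desc_le hkn j
  rw [Nat.descFactorial_eq_factorial_mul_choose, Nat.descFactorial_eq_factorial_mul_choose] at h2
  have hpos : 0 < n.choose j * j.factorial :=
    Nat.mul_pos (Nat.choose_pos (hjk.trans hkn)) (Nat.factorial_pos j)
  refine Nat.le_of_mul_le_mul_left ?_ hpos
  calc n.choose j * j.factorial * ((n - j).choose (k - j) * n ^ j)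
      = j.factorial * (n.choose j * (n - j).choose (k - j)) * n ^ j := by ring
    _ = j.factorial * (n.choose k * k.choose j) * n ^ j := by rw [h1]
    _ = n.choose k * (j.factorial * k.choose j * n ^ j) := by ring
    _ ≤ n.choose k * (j.factorial * n.choose j * k ^ j) := Nat.mul_le_mul_left _ h2
    _ = n.choose j * j.factorial * (n.choose k * k ^ j) := by ring

/-- A random `k`-set contains `j` given vertices with probability at most `(k / n) ^ j`. -/
lemma card_supersets {V : Type} [Fintype V] [DecidableEq V] {k : ℕ} (hk : k ≤ Fintype.card V)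
    (J : Finset V) :
    (univ.filter fun S : {S : Finset V // S.card = k} => J ⊆ S.1).card * Fintype.card V ^ J.card ≤
      Fintype.card {S : Finset V // S.card = k} * k ^ J.card := by
  classical
  have hcard : Fintype.card {S : Finset V // S.card = k} = (Fintype.card V).choose k := by
    rw [Fintype.card_finset_len]
  rcases Nat.lt_or_ge k J.card with h | h
  · have h1 : (univ.filter fun S : {S : Finset V // S.card = k} => J ⊆ S.1) = ∅ := by
      rw [Finset.filter_eq_empty_iff]
      intro S _ hS
      have h2 := Finset.card_le_card hS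
      rw [S.2] at h2
      omega
    rw [h1]
    simp
  · have h1 : (univ.filter fun S : {S : Finset V // S.card = k} => J ⊆ S.1).card ≤
        (Fintype.card V - J.card).choose (k - J.card) := by
      have h2 : (Jᶜ.powersetCard (k - J.card)).card =
          (Fintype.card V - J.card).choose (k - J.card) := by
        rw [Finset.card_powersetCard, Finset.card_compl]
      rw [← h2]
      refine Finset.card_le_card_of_injOn (fun S => S.1 \ J) ?_ ?_
      · intro S hS
        rw [Finset.coe_filter] at hS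
        have hJ : J ⊆ S.1 := hS.2
        rw [Finset.mem_coe, Finset.mem_powersetCard]
        refine ⟨fun x hx => ?_, ?_⟩
        · rw [Finset.mem_compl]
          exact (Finset.mem_sdiff.1 hx).2
        · rw [Finset.card_sdiff_of_subset hJ, S.2]
      · intro S hS S' hS' hSS
        rw [Finset.coe_filter] at hS hS'
        have hJ : J ⊆ S.1 := hS.2
        have hJ' : J ⊆ S'.1 := hS'.2
        apply Subtype.ext
        rw [← Finset.sdiff_union_of_subset hJ, ← Finset.sdiff_union_of_subset hJ']
        exact congrArg (· ∪ J) hSS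
    rw [hcard]
    exact (Nat.mul_le_mul_right _ h1).trans (choose_le hk h)

section

variable {V : Type} [Fintype V] [DecidableEq V] {B d m : ℕ}

/-- The event of a critical pattern of the shape `F`, `A` at stage `a`. -/
def Ev (h : Finset (Sym2 V) → ℝ) (a j : ℕ) (p : Finset (Sym2 (Fin j)) × Finset (Fin j))
    (φ : Fin j → V) (ω : Env V B d m) : Prop :=
  Function.Injective φ ∧ Crit h ω a (p.1.image (Sym2.map φ)) (p.2.image φ) (univ.image φ)

/-- The shape is admissible. -/
def Good {j : ℕ} (p : Finset (Sym2 (Fin j)) × Finset (Fin j)) : Prop :=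
  (∀ e ∈ p.1, ¬ e.IsDiag) ∧ ∀ v, v ∈ p.2 ∨ ∃ e ∈ p.1, v ∈ e

omit [Fintype V] in
/-- Bad outcomes have a shape. -/
lemma exists_shape {h : Finset (Sym2 V) → ℝ} {t q lo hi : ℕ} {S : Finset V} {ω : Env V B d m}
    (hb : Bad h t q lo hi S ω) :
    ∃ a ∈ Ico t (t + q), ∃ j ∈ Icc lo hi, ∃ p : Finset (Sym2 (Fin j)) × Finset (Fin j),
      Good p ∧ ∃ φ : Fin j → V, univ.image φ ⊆ S ∧ Ev h a j p φ ω := by
  classical
  obtain ⟨a, ha1, ha2, T, A, F, hTS, hAT, hFT, hcov, hlo, hhi, hcrit⟩ := hb
  let φ : Fin T.card → V := fun i => (T.equivFin.symm i : V)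
  have hφ : Function.Injective φ := fun i i' hii =>
    T.equivFin.symm.injective (Subtype.ext hii)
  have hφT : ∀ i, φ i ∈ T := fun i => (T.equivFin.symm i).2
  have hφs : ∀ x ∈ T, ∃ i, φ i = x := fun x hx => ⟨T.equivFin ⟨x, hx⟩, by simp [φ]⟩
  have him : univ.image φ = T := by
    ext x
    rw [Finset.mem_image]
    exact ⟨fun ⟨i, _, hi⟩ => hi ▸ hφT i, fun hx => by
      obtain ⟨i, hi⟩ := hφs x hx
      exact ⟨i, Finset.mem_univ _, hi⟩⟩
  let F₀ : Finset (Sym2 (Fin T.card)) := univ.filter fun e => e.map φ ∈ F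
  let A₀ : Finset (Fin T.card) := univ.filter fun i => φ i ∈ A
  have hF₀ : ∀ e, e ∈ F₀ ↔ e.map φ ∈ F := fun e => by simp [F₀]
  have hA₀ : ∀ i, i ∈ A₀ ↔ φ i ∈ A := fun i => by simp [A₀]
  have hFe : ∀ e ∈ F, ¬ e.IsDiag ∧ ∃ e₀ : Sym2 (Fin T.card), e₀.map φ = e := by
    intro e he
    have h1 := hFT he
    rw [KT, Finset.mem_filter] at h1
    refine ⟨h1.2, ?_⟩
    obtain ⟨h2, -⟩ := h1
    induction e using Sym2.ind with
    | _ x y =>
      rw [Finset.mk_mem_sym2_iff] at h2
      obtain ⟨i, hi⟩ := hφs x h2.1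
      obtain ⟨i', hi'⟩ := hφs y h2.2
      exact ⟨s(i, i'), by rw [Sym2.map_mk, hi, hi']⟩
  have hFim : F₀.image (Sym2.map φ) = F := by
    ext e
    rw [Finset.mem_image]
    constructor
    · rintro ⟨e₀, he₀, rfl⟩
      exact (hF₀ _).1 he₀
    · intro he
      obtain ⟨-, e₀, rfl⟩ := hFe e he
      exact ⟨e₀, (hF₀ _).2 he, rfl⟩
  have hAim : A₀.image φ = A := by
    ext x
    rw [Finset.mem_image]
    constructor
    · rintro ⟨i, hi, rfl⟩
      exact (hA₀ _).1 hi
    · intro hx
      obtain ⟨i, rfl⟩ := hφs x (hAT hx)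
      exact ⟨i, (hA₀ _).2 hx, rfl⟩
  refine ⟨a, Finset.mem_Ico.2 ⟨ha1, ha2⟩, T.card, Finset.mem_Icc.2 ⟨hlo, hhi⟩, (F₀, A₀),
    ⟨?_, ?_⟩, φ, by rw [him]; exact hTS, hφ, ?_⟩
  · intro e he hd
    have h1 := (hFe _ ((hF₀ _).1 he)).1
    apply h1
    induction e using Sym2.ind with
    | _ x y =>
      rw [Sym2.mk_isDiag_iff] at hd
      subst hd
      rw [Sym2.map_mk, Sym2.mk_isDiag_iff]
  · intro v
    rcases hcov (φ v) (hφT v) with h1 | ⟨e, he, hve⟩
    · exact Or.inl ((hA₀ _).2 h1)
    · right
      obtain ⟨-, e₀, rfl⟩ := hFe e he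
      refine ⟨e₀, (hF₀ _).2 he, ?_⟩
      obtain ⟨w, hw, hwv⟩ := Sym2.mem_map.1 hve
      rwa [← hφ hwv]
  · rw [him, hFim, hAim]
    exact hcrit

end

open Classical in
/-- **(F2)** -/
theorem stBad : StShape → StBad := by
  intro hshape V _ _ _ B d m k hk t q lo hi htq hhi h hmono
  have hn : 0 < Fintype.card V := Fintype.card_pos
  have hnR : (0 : ℝ) < Fintype.card V := by exact_mod_cast hn
  obtain ⟨NS, hNS⟩ : ∃ N : ℕ, N = Fintype.card {S : Finset V // S.card = k} := ⟨_, rfl⟩
  obtain ⟨NE, hNE⟩ : ∃ N : ℕ, N = Fintype.card (Env V B d m) := ⟨_, rfl⟩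
  let X : (a j : ℕ) → Finset (Sym2 (Fin j)) × Finset (Fin j) →
      Finset ({S : Finset V // S.card = k} × Env V B d m) := fun a j p =>
    univ.filter fun x => Good p ∧ ∃ φ : Fin j → V, univ.image φ ⊆ x.1.1 ∧ Ev h a j p φ x.2
  have hX : ∀ a < B, ∀ j ≤ d, ∀ p : Finset (Sym2 (Fin j)) × Finset (Fin j),
      ((X a j p).card : ℝ) ≤ NS * NE * ((2 : ℝ) ^ (j * (j + 1) / 2) * ((k : ℝ) / (m + 1)) ^ j) := by
    intro a ha j hj p
    by_cases hg : Good p
    swap
    · have h0 : X a j p = ∅ := by
        rw [Finset.filter_eq_empty_iff]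
        intro x _ hx
        exact hg hx.1
      rw [h0, Finset.card_empty, Nat.cast_zero]
      positivity
    have h1 : X a j p ⊆ (univ : Finset (Fin j → V)).biUnion fun φ =>
        (univ.filter fun S : {S : Finset V // S.card = k} =>
          Function.Injective φ ∧ univ.image φ ⊆ S.1) ×ˢ
          (univ.filter fun ω : Env V B d m => Ev h a j p φ ω) := by
      intro x hx
      obtain ⟨-, -, φ, h2, h3⟩ := Finset.mem_filter.1 hx
      rw [Finset.mem_biUnion]
      exact ⟨φ, Finset.mem_univ _, Finset.mem_product.2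
        ⟨Finset.mem_filter.2 ⟨Finset.mem_univ _, h3.1, h2⟩,
          Finset.mem_filter.2 ⟨Finset.mem_univ _, h3⟩⟩⟩
    have h2 : ((X a j p).card : ℝ) ≤ ∑ φ : Fin j → V,
        ((univ.filter fun S : {S : Finset V // S.card = k} =>
          Function.Injective φ ∧ univ.image φ ⊆ S.1).card : ℝ) *
          ((univ.filter fun ω : Env V B d m => Ev h a j p φ ω).card : ℝ) := by
      refine (Nat.cast_le.2 ((Finset.card_le_card h1).trans Finset.card_biUnion_le)).trans ?_
      rw [Nat.cast_sum]
      refine le_of_eq (Finset.sum_congr rfl fun φ _ => ?_)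
      rw [Finset.card_product, Nat.cast_mul]
    have h3 : ∀ φ : Fin j → V, ((univ.filter fun S : {S : Finset V // S.card = k} =>
          Function.Injective φ ∧ univ.image φ ⊆ S.1).card : ℝ) ≤
          NS * ((k : ℝ) / Fintype.card V) ^ j := by
      intro φ
      by_cases hφ : Function.Injective φ
      swap
      · have h0 : (univ.filter fun S : {S : Finset V // S.card = k} =>
            Function.Injective φ ∧ univ.image φ ⊆ S.1) = ∅ := by
          rw [Finset.filter_eq_empty_iff]
          intro x _ hx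
          exact hφ hx.1
        rw [h0, Finset.card_empty, Nat.cast_zero]
        positivity
      · have h4 := card_supersets hk (univ.image φ)
        rw [Finset.card_image_of_injective _ hφ, Finset.card_univ, Fintype.card_fin] at h4
        have h5 : (univ.filter fun S : {S : Finset V // S.card = k} =>
            Function.Injective φ ∧ univ.image φ ⊆ S.1) =
            univ.filter fun S : {S : Finset V // S.card = k} => univ.image φ ⊆ S.1 := by
          refine Finset.filter_congr fun S _ => ?_
          simp [hφ]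
        rw [h5, div_pow, ← mul_div_assoc, le_div_iff₀ (pow_pos hnR j), hNS]
        exact_mod_cast h4
    have h4 : ((X a j p).card : ℝ) ≤ NS * ((k : ℝ) / Fintype.card V) ^ j *
        ∑ φ : Fin j → V, ((univ.filter fun ω : Env V B d m => Ev h a j p φ ω).card : ℝ) := by
      rw [Finset.mul_sum]
      exact h2.trans (Finset.sum_le_sum fun φ _ =>
        mul_le_mul_of_nonneg_right (h3 φ) (Nat.cast_nonneg _))
    have h5 : ∑ φ : Fin j → V, (univ.filter fun ω : Env V B d m => Ev h a j p φ ω).card =
        Nat.card {x : (Fin j → V) × Env V B d m // Function.Injective x.1 ∧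
          Crit h x.2 a (p.1.image (Sym2.map x.1)) (p.2.image x.1) (univ.image x.1)} := by
      rw [Nat.card_eq_fintype_card, Fintype.card_subtype, Finset.card_filter,
        Fintype.sum_prod_type]
      refine Finset.sum_congr rfl fun φ _ => ?_
      rw [Finset.card_filter]
      exact Finset.sum_congr rfl fun ω _ => if_congr Iff.rfl rfl rfl
    have h6 := hshape V B d m j a ha hj h hmono p.1 p.2 hg.1 hg.2
    have h7 : Nat.card ((Fin j → V) × Env V B d m) = Fintype.card V ^ j * NE := by
      rw [Nat.card_eq_fintype_card, Fintype.card_prod, Fintype.card_fun, Fintype.card_fin, hNE]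
    rw [h7] at h6
    have h8 : p.1.card ≤ j * (j + 1) / 2 := by
      have h9 := Finset.card_le_univ p.1
      rw [Sym2.card, Fintype.card_fin, Nat.choose_two_right] at h9
      rw [Nat.add_sub_cancel, mul_comm] at h9
      exact h9
    have h10 : ((m : ℝ) + 1) ^ j * ∑ φ : Fin j → V,
        ((univ.filter fun ω : Env V B d m => Ev h a j p φ ω).card : ℝ) ≤
        2 ^ (j * (j + 1) / 2) * ((Fintype.card V : ℝ) ^ j * NE) := by
      have h11 : (m + 1) ^ j * ∑ φ : Fin j → V,
          (univ.filter fun ω : Env V B d m => Ev h a j p φ ω).card ≤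
          2 ^ (j * (j + 1) / 2) * (Fintype.card V ^ j * NE) := by
        rw [h5]
        exact h6.trans (Nat.mul_le_mul_right _ (Nat.pow_le_pow_right (by norm_num) h8))
      exact_mod_cast h11
    have hm : (0 : ℝ) < ((m : ℝ) + 1) ^ j := by positivity
    have h12 : ∑ φ : Fin j → V, ((univ.filter fun ω : Env V B d m => Ev h a j p φ ω).card : ℝ) ≤
        2 ^ (j * (j + 1) / 2) * ((Fintype.card V : ℝ) ^ j * NE) / ((m : ℝ) + 1) ^ j := by
      rw [le_div_iff₀ hm, mul_comm]
      exact h10
    refine h4.trans ((mul_le_mul_of_nonneg_left h12 (by positivity)).trans (le_of_eq ?_))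
    rw [div_pow, div_pow]
    field_simp
  -- the union bound
  have hsub : (univ.filter fun x : {S : Finset V // S.card = k} × Env V B d m =>
      Bad h t q lo hi x.1.1 x.2) ⊆ (Ico t (t + q)).biUnion fun a => (Icc lo hi).biUnion fun j =>
        (univ : Finset (Finset (Sym2 (Fin j)) × Finset (Fin j))).biUnion fun p => X a j p := by
    intro x hx
    obtain ⟨a, ha, j, hj, p, hg, φ, h1, h2⟩ := exists_shape (Finset.mem_filter.1 hx).2
    rw [Finset.mem_biUnion]
    refine ⟨a, ha, ?_⟩
    rw [Finset.mem_biUnion]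
    refine ⟨j, hj, ?_⟩
    rw [Finset.mem_biUnion]
    exact ⟨p, Finset.mem_univ _, Finset.mem_filter.2 ⟨Finset.mem_univ _, hg, φ, h1, h2⟩⟩
  have hcount : ((univ.filter fun x : {S : Finset V // S.card = k} × Env V B d m =>
      Bad h t q lo hi x.1.1 x.2).card : ℝ) ≤ NS * NE *
        ((q : ℝ) * ∑ j ∈ Icc lo hi, (2 : ℝ) ^ (j ^ 2 + 2 * j) * ((k : ℝ) / (m + 1)) ^ j) := by
    calc ((univ.filter fun x : {S : Finset V // S.card = k} × Env V B d m =>
          Bad h t q lo hi x.1.1 x.2).card : ℝ)
        ≤ ∑ a ∈ Ico t (t + q), ∑ j ∈ Icc lo hi,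
            ∑ p : Finset (Sym2 (Fin j)) × Finset (Fin j), ((X a j p).card : ℝ) := by
          have h1 := (Finset.card_le_card hsub).trans Finset.card_biUnion_le
          have h2 : ∀ a ∈ Ico t (t + q), ((Icc lo hi).biUnion fun j =>
              (univ : Finset (Finset (Sym2 (Fin j)) × Finset (Fin j))).biUnion
                fun p => X a j p).card ≤ ∑ j ∈ Icc lo hi,
                  ∑ p : Finset (Sym2 (Fin j)) × Finset (Fin j), (X a j p).card :=
            fun a _ => Finset.card_biUnion_le.trans
              (Finset.sum_le_sum fun j _ => Finset.card_biUnion_le)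
          exact_mod_cast h1.trans (Finset.sum_le_sum h2)
      _ ≤ ∑ a ∈ Ico t (t + q), ∑ j ∈ Icc lo hi,
            ∑ p : Finset (Sym2 (Fin j)) × Finset (Fin j),
              (NS : ℝ) * NE * ((2 : ℝ) ^ (j * (j + 1) / 2) * ((k : ℝ) / (m + 1)) ^ j) := by
          refine Finset.sum_le_sum fun a ha => Finset.sum_le_sum fun j hj =>
            Finset.sum_le_sum fun p _ => hX a ?_ j ?_ p
          · have := (Finset.mem_Ico.1 ha).2
            omega
          · have := (Finset.mem_Icc.1 hj).2
            omega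
      _ = NS * NE * ((q : ℝ) * ∑ j ∈ Icc lo hi,
            (2 : ℝ) ^ (j ^ 2 + 2 * j) * ((k : ℝ) / (m + 1)) ^ j) := by
          rw [Finset.sum_const, Nat.card_Ico, Nat.add_sub_cancel_left, nsmul_eq_mul,
            Finset.mul_sum, Finset.mul_sum, Finset.mul_sum]
          refine Finset.sum_congr rfl fun j _ => ?_
          rw [Finset.sum_const, Finset.card_univ, Fintype.card_prod, Fintype.card_finset,
            Fintype.card_finset, Sym2.card, Fintype.card_fin, Nat.choose_two_right,
            Nat.add_sub_cancel, mul_comm (j + 1) j, nsmul_eq_mul]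
          have h1 : (2 : ℝ) ^ (j ^ 2 + 2 * j) =
              2 ^ (j * (j + 1) / 2) * 2 ^ j * 2 ^ (j * (j + 1) / 2) := by
            rw [← pow_add, ← pow_add]
            congr 1
            have h2 : 2 ∣ j * (j + 1) := (Nat.even_mul_succ_self j).two_dvd
            have h3 : j * (j + 1) / 2 * 2 = j * (j + 1) := Nat.div_mul_cancel h2
            have h4 : j * (j + 1) = j ^ 2 + j := by ring
            omega
          rw [h1]
          push_cast
          ring
  have hNSpos : 0 < Fintype.card {S : Finset V // S.card = k} := by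
    rw [Fintype.card_finset_len]
    exact Nat.choose_pos hk
  have : Nonempty (Env V B d m) := ⟨(∅, fun _ _ => Classical.arbitrary V,
    fun _ _ => Classical.arbitrary V)⟩
  have hNEpos : 0 < Fintype.card (Env V B d m) := Fintype.card_pos
  rw [prob, Fintype.card_prod, ← hNS, ← hNE]
  have hpos : (0 : ℝ) < ((NS * NE : ℕ) : ℝ) := by
    rw [hNS, hNE]
    exact_mod_cast Nat.mul_pos hNSpos hNEpos
  rw [div_le_iff₀ hpos]
  refine le_trans ?_ (hcount.trans (le_of_eq ?_))
  · exact le_of_eq (by congr 1)
  · push_cast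
    ring

end Pool.Agent.T9h41.QC
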