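import Pool.Agent.T9h34.Q.Spec3
import Pool.Agent.T9h41.QC.Bad

/-!
# (F2') The union bound for the bad event, with a factor
-/

set_option autoImplicit false

namespace Pool.Agent.T9h41.QC

open Finset
open Pool.Agent.PC34 (prob)
open Pool.Agent.T9h34.Q

open Classical in
/-- The union bound for the bad event, given a bound for each shape. -/
theorem bad_of_shape {V : Type} [Fintype V] [DecidableEq V] [Nonempty V] {B d m k : ℕ}
    (hk : k ≤ Fintype.card V) {t q lo hi : ℕ} {h : Finset (Sym2 V) → ℝ} {δ : ℝ} (hδ : 0 ≤ δ)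
    (hshape : ∀ a j, a < t + q → lo ≤ j → j ≤ hi → ∀ (F : Finset (Sym2 (Fin j)))
      (A : Finset (Fin j)), (∀ e ∈ F, ¬ e.IsDiag) → (∀ v, v ∈ A ∨ ∃ e ∈ F, v ∈ e) →
      ((m : ℝ) + 1) ^ j * prob (fun x : (Fin j → V) × Env V B d m =>
        Function.Injective x.1 ∧ Crit h x.2 a (F.image (Sym2.map x.1)) (A.image x.1)
          (univ.image x.1)) ≤ 2 ^ F.card * δ) :
    prob (fun x : {S : Finset V // S.card = k} × Env V B d m => Bad h t q lo hi x.1.1 x.2) ≤
      δ * ((q : ℝ) * ∑ j ∈ Icc lo hi, wgt ((k : ℝ) / (m + 1)) j) := by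
  have hn : 0 < Fintype.card V := Fintype.card_pos
  have hnR : (0 : ℝ) < Fintype.card V := by exact_mod_cast hn
  obtain ⟨NS, hNS⟩ : ∃ N : ℕ, N = Fintype.card {S : Finset V // S.card = k} := ⟨_, rfl⟩
  obtain ⟨NE, hNE⟩ : ∃ N : ℕ, N = Fintype.card (Env V B d m) := ⟨_, rfl⟩
  let X : (a j : ℕ) → Finset (Sym2 (Fin j)) × Finset (Fin j) →
      Finset ({S : Finset V // S.card = k} × Env V B d m) := fun a j p =>
    univ.filter fun x => Good p ∧ ∃ φ : Fin j → V, univ.image φ ⊆ x.1.1 ∧ Ev h a j p φ x.2
  have hX : ∀ a < t + q, ∀ j, lo ≤ j → j ≤ hi → ∀ p : Finset (Sym2 (Fin j)) × Finset (Fin j),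
      ((X a j p).card : ℝ) ≤
        NS * NE * (δ * ((2 : ℝ) ^ (j * (j + 1) / 2) * ((k : ℝ) / (m + 1)) ^ j)) := by
    intro a ha j hj0 hj p
    by_cases hg : Good p
    swap
    · have h0 : X a j p = ∅ := by
        rw [Finset.filter_eq_empty_iff]
        intro x _ hx
        exact hg hx.1
      rw [h0, Finset.card_empty, Nat.cast_zero]
      positivity
    have h1 : X a j p ⊆ (univ : Finset (Fin j → V)).biUnion fun φ =>
        (univ.filter fun S : {S : Finset V // S.card = k} =>
          Function.Injective φ ∧ univ.image φ ⊆ S.1) ×ˢ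
          (univ.filter fun ω : Env V B d m => Ev h a j p φ ω) := by
      intro x hx
      obtain ⟨-, -, φ, h2, h3⟩ := Finset.mem_filter.1 hx
      rw [Finset.mem_biUnion]
      exact ⟨φ, Finset.mem_univ _, Finset.mem_product.2
        ⟨Finset.mem_filter.2 ⟨Finset.mem_univ _, h3.1, h2⟩,
          Finset.mem_filter.2 ⟨Finset.mem_univ _, h3⟩⟩⟩
    have h2 : ((X a j p).card : ℝ) ≤ ∑ φ : Fin j → V,
        ((univ.filter fun S : {S : Finset V // S.card = k} =>
          Function.Injective φ ∧ univ.image φ ⊆ S.1).card : ℝ) *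
          ((univ.filter fun ω : Env V B d m => Ev h a j p φ ω).card : ℝ) := by
      refine (Nat.cast_le.2 ((Finset.card_le_card h1).trans Finset.card_biUnion_le)).trans ?_
      rw [Nat.cast_sum]
      refine le_of_eq (Finset.sum_congr rfl fun φ _ => ?_)
      rw [Finset.card_product, Nat.cast_mul]
    have h3 : ∀ φ : Fin j → V, ((univ.filter fun S : {S : Finset V // S.card = k} =>
          Function.Injective φ ∧ univ.image φ ⊆ S.1).card : ℝ) ≤
          NS * ((k : ℝ) / Fintype.card V) ^ j := by
      intro φ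
      by_cases hφ : Function.Injective φ
      swap
      · have h0 : (univ.filter fun S : {S : Finset V // S.card = k} =>
            Function.Injective φ ∧ univ.image φ ⊆ S.1) = ∅ := by
          rw [Finset.filter_eq_empty_iff]
          intro x _ hx
          exact hφ hx.1
        rw [h0, Finset.card_empty, Nat.cast_zero]
        positivity
      · have h4 := card_supersets hk (univ.image φ)
        rw [Finset.card_image_of_injective _ hφ, Finset.card_univ, Fintype.card_fin] at h4
        have h5 : (univ.filter fun S : {S : Finset V // S.card = k} =>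
            Function.Injective φ ∧ univ.image φ ⊆ S.1) =
            univ.filter fun S : {S : Finset V // S.card = k} => univ.image φ ⊆ S.1 := by
          refine Finset.filter_congr fun S _ => ?_
          simp [hφ]
        rw [h5, div_pow, ← mul_div_assoc, le_div_iff₀ (pow_pos hnR j), hNS]
        exact_mod_cast h4
    have h4 : ((X a j p).card : ℝ) ≤ NS * ((k : ℝ) / Fintype.card V) ^ j *
        ∑ φ : Fin j → V, ((univ.filter fun ω : Env V B d m => Ev h a j p φ ω).card : ℝ) := by
      rw [Finset.mul_sum]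
      exact h2.trans (Finset.sum_le_sum fun φ _ =>
        mul_le_mul_of_nonneg_right (h3 φ) (Nat.cast_nonneg _))
    have h5 : ∑ φ : Fin j → V, (univ.filter fun ω : Env V B d m => Ev h a j p φ ω).card =
        Nat.card {x : (Fin j → V) × Env V B d m // Function.Injective x.1 ∧
          Crit h x.2 a (p.1.image (Sym2.map x.1)) (p.2.image x.1) (univ.image x.1)} := by
      rw [Nat.card_eq_fintype_card, Fintype.card_subtype, Finset.card_filter,
        Fintype.sum_prod_type]
      refine Finset.sum_congr rfl fun φ _ => ?_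
      rw [Finset.card_filter]
      exact Finset.sum_congr rfl fun ω _ => if_congr Iff.rfl rfl rfl
    have h6 := hshape a j ha hj0 hj p.1 p.2 hg.1 hg.2
    have hV : Nonempty (Env V B d m) := ⟨(∅, fun _ _ => Classical.arbitrary V,
      fun _ _ => Classical.arbitrary V)⟩
    have hcard : Fintype.card ((Fin j → V) × Env V B d m) = Fintype.card V ^ j * NE := by
      rw [Fintype.card_prod, Fintype.card_fun, Fintype.card_fin, hNE]
    have hcpos : (0 : ℝ) < ((Fintype.card V ^ j * NE : ℕ) : ℝ) := by
      have h1 : 0 < NE := by rw [hNE]; exact Fintype.card_pos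
      exact_mod_cast Nat.mul_pos (pow_pos hn j) h1
    have h8 : p.1.card ≤ j * (j + 1) / 2 := by
      have h9 := Finset.card_le_univ p.1
      rw [Sym2.card, Fintype.card_fin, Nat.choose_two_right] at h9
      rw [Nat.add_sub_cancel, mul_comm] at h9
      exact h9
    have h10 : ((m : ℝ) + 1) ^ j * ∑ φ : Fin j → V,
        ((univ.filter fun ω : Env V B d m => Ev h a j p φ ω).card : ℝ) ≤
        2 ^ (j * (j + 1) / 2) * ((Fintype.card V : ℝ) ^ j * NE) * δ := by
      rw [Nat.card_eq_fintype_card] at h5
      have h11 : (∑ φ : Fin j → V,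
          ((univ.filter fun ω : Env V B d m => Ev h a j p φ ω).card : ℝ)) =
          prob (fun x : (Fin j → V) × Env V B d m => Function.Injective x.1 ∧
            Crit h x.2 a (p.1.image (Sym2.map x.1)) (p.2.image x.1) (univ.image x.1)) *
          ((Fintype.card V ^ j * NE : ℕ) : ℝ) := by
        rw [prob, hcard, div_mul_cancel₀ _ hcpos.ne', ← Nat.cast_sum, h5, Fintype.card_subtype]
        congr!
      rw [h11, ← mul_assoc]
      refine (mul_le_mul_of_nonneg_right h6 hcpos.le).trans ?_
      have h12 : (2 : ℝ) ^ p.1.card ≤ 2 ^ (j * (j + 1) / 2) :=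
        pow_le_pow_right₀ (by norm_num) h8
      calc (2 : ℝ) ^ p.1.card * δ * ((Fintype.card V ^ j * NE : ℕ) : ℝ)
          = 2 ^ p.1.card * (((Fintype.card V ^ j * NE : ℕ) : ℝ) * δ) := by ring
        _ ≤ 2 ^ (j * (j + 1) / 2) * (((Fintype.card V ^ j * NE : ℕ) : ℝ) * δ) :=
            mul_le_mul_of_nonneg_right h12 (mul_nonneg hcpos.le hδ)
        _ = _ := by push_cast; ring
    have hm : (0 : ℝ) < ((m : ℝ) + 1) ^ j := by positivity
    have h12 : ∑ φ : Fin j → V, ((univ.filter fun ω : Env V B d m => Ev h a j p φ ω).card : ℝ) ≤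
        2 ^ (j * (j + 1) / 2) * ((Fintype.card V : ℝ) ^ j * NE) * δ / ((m : ℝ) + 1) ^ j := by
      rw [le_div_iff₀ hm, mul_comm]
      exact h10
    refine h4.trans ((mul_le_mul_of_nonneg_left h12 (by positivity)).trans (le_of_eq ?_))
    rw [div_pow, div_pow]
    field_simp
  -- the union bound
  have hsub : (univ.filter fun x : {S : Finset V // S.card = k} × Env V B d m =>
      Bad h t q lo hi x.1.1 x.2) ⊆ (Ico t (t + q)).biUnion fun a => (Icc lo hi).biUnion fun j =>
        (univ : Finset (Finset (Sym2 (Fin j)) × Finset (Fin j))).biUnion fun p => X a j p := by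
    intro x hx
    obtain ⟨a, ha, j, hj, p, hg, φ, h1, h2⟩ := exists_shape (Finset.mem_filter.1 hx).2
    rw [Finset.mem_biUnion]
    refine ⟨a, ha, ?_⟩
    rw [Finset.mem_biUnion]
    refine ⟨j, hj, ?_⟩
    rw [Finset.mem_biUnion]
    exact ⟨p, Finset.mem_univ _, Finset.mem_filter.2 ⟨Finset.mem_univ _, hg, φ, h1, h2⟩⟩
  have hcount : ((univ.filter fun x : {S : Finset V // S.card = k} × Env V B d m =>
      Bad h t q lo hi x.1.1 x.2).card : ℝ) ≤ NS * NE *
        (δ * ((q : ℝ) * ∑ j ∈ Icc lo hi, wgt ((k : ℝ) / (m + 1)) j)) := by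
    calc ((univ.filter fun x : {S : Finset V // S.card = k} × Env V B d m =>
          Bad h t q lo hi x.1.1 x.2).card : ℝ)
        ≤ ∑ a ∈ Ico t (t + q), ∑ j ∈ Icc lo hi,
            ∑ p : Finset (Sym2 (Fin j)) × Finset (Fin j), ((X a j p).card : ℝ) := by
          have h1 := (Finset.card_le_card hsub).trans Finset.card_biUnion_le
          have h2 : ∀ a ∈ Ico t (t + q), ((Icc lo hi).biUnion fun j =>
              (univ : Finset (Finset (Sym2 (Fin j)) × Finset (Fin j))).biUnion
                fun p => X a j p).card ≤ ∑ j ∈ Icc lo hi,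
                  ∑ p : Finset (Sym2 (Fin j)) × Finset (Fin j), (X a j p).card :=
            fun a _ => Finset.card_biUnion_le.trans
              (Finset.sum_le_sum fun j _ => Finset.card_biUnion_le)
          exact_mod_cast h1.trans (Finset.sum_le_sum h2)
      _ ≤ ∑ a ∈ Ico t (t + q), ∑ j ∈ Icc lo hi,
            ∑ p : Finset (Sym2 (Fin j)) × Finset (Fin j),
              (NS : ℝ) * NE * (δ * ((2 : ℝ) ^ (j * (j + 1) / 2) *
                ((k : ℝ) / (m + 1)) ^ j)) := by
          refine Finset.sum_le_sum fun a ha => Finset.sum_le_sum fun j hj =>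
            Finset.sum_le_sum fun p _ => hX a (Finset.mem_Ico.1 ha).2 j
              (Finset.mem_Icc.1 hj).1 (Finset.mem_Icc.1 hj).2 p
      _ = NS * NE * (δ * ((q : ℝ) * ∑ j ∈ Icc lo hi, wgt ((k : ℝ) / (m + 1)) j)) := by
          unfold wgt
          rw [Finset.sum_const, Nat.card_Ico, Nat.add_sub_cancel_left, nsmul_eq_mul,
            Finset.mul_sum, Finset.mul_sum, Finset.mul_sum, Finset.mul_sum]
          refine Finset.sum_congr rfl fun j _ => ?_
          rw [Finset.sum_const, Finset.card_univ, Fintype.card_prod, Fintype.card_finset,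
            Fintype.card_finset, Sym2.card, Fintype.card_fin, Nat.choose_two_right,
            Nat.add_sub_cancel, mul_comm (j + 1) j, nsmul_eq_mul]
          have h1 : (2 : ℝ) ^ (j ^ 2 + 2 * j) =
              2 ^ (j * (j + 1) / 2) * 2 ^ j * 2 ^ (j * (j + 1) / 2) := by
            rw [← pow_add, ← pow_add]
            congr 1
            have h2 : 2 ∣ j * (j + 1) := (Nat.even_mul_succ_self j).two_dvd
            have h3 : j * (j + 1) / 2 * 2 = j * (j + 1) := Nat.div_mul_cancel h2
            have h4 : j * (j + 1) = j ^ 2 + j := by ring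
            omega
          rw [h1]
          push_cast
          ring
  have hNSpos : 0 < Fintype.card {S : Finset V // S.card = k} := by
    rw [Fintype.card_finset_len]
    exact Nat.choose_pos hk
  have : Nonempty (Env V B d m) := ⟨(∅, fun _ _ => Classical.arbitrary V,
    fun _ _ => Classical.arbitrary V)⟩
  have hNEpos : 0 < Fintype.card (Env V B d m) := Fintype.card_pos
  rw [prob, Fintype.card_prod, ← hNS, ← hNE]
  have hpos : (0 : ℝ) < ((NS * NE : ℕ) : ℝ) := by
    rw [hNS, hNE]
    exact_mod_cast Nat.mul_pos hNSpos hNEpos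
  rw [div_le_iff₀ hpos]
  refine le_trans ?_ (hcount.trans (le_of_eq ?_))
  · exact le_of_eq (by congr 1)
  · push_cast
    ring

/-- **(F2')** -/
theorem stBadB : StShapeB → StBadB := by
  intro hshape V _ _ _ B d m k hk t q lo hi htq hlo hhi hm hR h hmono hbool
  have hn : 0 < Fintype.card V := Fintype.card_pos
  have hnR : (0 : ℝ) < Fintype.card V := by exact_mod_cast hn
  refine bad_of_shape hk (by positivity) fun a j ha hj0 hj F A hF hA => ?_
  refine (hshape V B d m j a (by omega) (by omega) (by omega) hm hR h hmono hbool F A hF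
    hA).trans ?_
  refine mul_le_mul_of_nonneg_left ?_ (by positivity)
  refine mul_le_mul_of_nonneg_right ?_ (by positivity)
  exact_mod_cast Nat.add_le_add_left hj (d * m)

end Pool.Agent.T9h41.QC
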